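import Pool.Agent.Y659.TraceIneq.Seq

/-! Measuring all eigenvectors in the order of decreasing eigenvalues. -/

set_option autoImplicit false

namespace Pool.Agent.Y659.TraceIneq

open Finset

lemma tri {N : ℕ} (G : Fin N → Fin N → ℝ) (hs : ∀ k l, G k l = G l k) (h0 : ∀ k, G k k = 0) :
    ∑ k, ∑ l, G k l = 2 * ∑ k, ∑ l ∈ Ioi k, G k l := by
  have h1 : ∀ k, ∑ l, G k l = ∑ l ∈ Ioi k, G k l + ∑ l ∈ Iio k, G k l := by
    intro k
    have : (univ : Finset (Fin N)) = (Ioi k ∪ Iio k) ∪ {k} := by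
      ext l
      simp only [mem_univ, mem_union, mem_Ioi, mem_Iio, mem_singleton, true_iff]
      rcases lt_trichotomy k l with h | h | h
      · exact Or.inl (Or.inl h)
      · exact Or.inr h.symm
      · exact Or.inl (Or.inr h)
    rw [this, sum_union, sum_union, sum_singleton, h0, add_zero]
    · rw [disjoint_left]; intro l h1 h2
      rw [mem_Ioi] at h1; rw [mem_Iio] at h2; exact absurd h1 h2.not_gt
    · rw [disjoint_left]; intro l h1 h2
      rw [mem_singleton] at h2; subst h2
      simp at h1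
  have h2 : ∑ k, ∑ l ∈ Iio k, G k l = ∑ k, ∑ l ∈ Ioi k, G k l := by
    rw [sum_comm' (t' := univ) (s' := fun l => Ioi l) (by simp)]
    exact sum_congr rfl fun k _ => sum_congr rfl fun l _ => hs _ _
  simp only [h1, sum_add_distrib, h2]; ring

variable {E : Type*} [NormedAddCommGroup E] [InnerProductSpace ℂ E]

theorem core {n d : ℕ} (α : Fin n → OrthonormalBasis (Fin d) ℂ E) (a : Fin n → Fin d → ℝ)
    (ha : ∀ m i, 0 ≤ a m i) :
    ∃ Y : Fin n → (E →ₗ[ℂ] E), (∀ x, ∑ m, ‖Y m x‖ ^ 2 ≤ ‖x‖ ^ 2) ∧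
      ∑ m, ∑ i, a m i * (1 - (inner ℂ (α m i) (Y m (α m i))).re) ≤
        2 * ∑ m, ∑ m' ∈ Ioi m, ∑ i, ∑ j,
          min (a m i) (a m' j) * ‖inner ℂ (α m i) (α m' j)‖ ^ 2 := by
  classical
  -- the ordering
  obtain ⟨p, hp⟩ : ∃ p : Fin (n * d) ≃ Fin n × Fin d,
      ∀ k l, k ≤ l → a (p l).1 (p l).2 ≤ a (p k).1 (p k).2 := by
    let g : Fin (n * d) → ℝ := fun k =>
      - a (finProdFinEquiv.symm k).1 (finProdFinEquiv.symm k).2
    refine ⟨(Tuple.sort g).trans finProdFinEquiv.symm, fun k l hkl => ?_⟩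
    have := Tuple.monotone_sort g hkl
    simpa [g] using this
  let v : ℕ → E := fun k => if h : k < n * d then α (p ⟨k, h⟩).1 (p ⟨k, h⟩).2 else 0
  have hv : ∀ k : Fin (n * d), v k = α (p k).1 (p k).2 := fun k => by simp [v]
  have hv1 : ∀ k < n * d, ‖v k‖ = 1 := fun k hk => by
    have := hv ⟨k, hk⟩
    simp only at this
    rw [this]; exact (α _).orthonormal.norm_eq_one _
  let Y : Fin n → (E →ₗ[ℂ] E) := fun m =>
    { toFun := fun x => ∑ i, amp v (p.symm (m, i)) x • α m i
      map_add' := fun x y => by simp [amp_add, add_smul, sum_add_distrib]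
      map_smul' := fun c x => by simp [amp_smul, mul_smul, smul_sum] }
  have hY : ∀ m x, Y m x = ∑ i, amp v (p.symm (m, i)) x • α m i := fun _ _ => rfl
  refine ⟨Y, fun x => ?_, ?_⟩
  · have h1 : ∀ m, ‖Y m x‖ ^ 2 = ∑ i, ‖amp v (p.symm (m, i)) x‖ ^ 2 := by
      intro m
      rw [← (α m).sum_sq_norm_inner_right]
      refine sum_congr rfl fun i _ => ?_
      rw [hY, (α m).orthonormal.inner_right_fintype]
    have h2 : ∑ m, ∑ i, ‖amp v (p.symm (m, i)) x‖ ^ 2 = ∑ k : Fin (n * d), ‖amp v k x‖ ^ 2 := by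
      rw [← Fintype.sum_prod_type' (f := fun m i => ‖amp v (p.symm (m, i)) x‖ ^ 2)]
      exact Equiv.sum_comp p.symm (fun k : Fin (n * d) => ‖amp v k x‖ ^ 2)
    have h3 := sum_amp v (n * d) hv1 x
    rw [sum_congr rfl fun m _ => h1 m, h2, Fin.sum_univ_eq_sum_range
      (fun k => ‖amp v k x‖ ^ 2) (n * d)]
    nlinarith [sq_nonneg ‖seq v (n * d) x‖]
  · let G : Fin n × Fin d → Fin n × Fin d → ℝ := fun s t =>
      if s.1 = t.1 then 0 else min (a s.1 s.2) (a t.1 t.2) * ‖inner ℂ (α s.1 s.2) (α t.1 t.2)‖ ^ 2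
    have hG : ∀ s t, G s t = G t s := by
      intro s t
      simp only [G, min_comm (a s.1 s.2), norm_inner_symm (α s.1 s.2), eq_comm (a := s.1)]
    have hG0 : ∀ s, G s s = 0 := by intro s; simp [G]
    -- each term
    have hterm : ∀ m i, a m i * (1 - (inner ℂ (α m i) (Y m (α m i))).re) ≤
        2 * ∑ l ∈ Iio (p.symm (m, i)), G (p l) (m, i) := by
      intro m i
      set k := p.symm (m, i) with hk
      have hpk : p k = (m, i) := by rw [hk]; simp
      have hvk : v k = α m i := by rw [hv, hpk]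
      have e1 : inner ℂ (α m i) (Y m (α m i)) = inner ℂ (α m i) (seq v k (α m i)) := by
        rw [hY, (α m).orthonormal.inner_right_fintype, ← hk, amp, hvk]
      have e2 := key v k (fun l hl => hv1 l (hl.trans k.2)) (α m i)
        ((α m).orthonormal.norm_eq_one i)
      have e3 : 1 - (inner ℂ (α m i) (Y m (α m i))).re ≤
          2 * ∑ l ∈ range (k : ℕ), ‖inner ℂ (v l) (α m i)‖ ^ 2 := by
        rw [e1]
        refine le_trans ?_ e2
        have := Complex.re_le_norm (1 - inner ℂ (α m i) (seq v k (α m i)))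
        simpa using this
      have e4 : ∑ l ∈ range (k : ℕ), ‖inner ℂ (v l) (α m i)‖ ^ 2 =
          ∑ l ∈ Iio k, ‖inner ℂ (α (p l).1 (p l).2) (α m i)‖ ^ 2 := by
        symm
        refine sum_bij (fun l _ => (l : ℕ)) ?_ ?_ ?_ ?_
        · intro l hl; simpa using hl
        · intro l _ l' _ h; exact Fin.ext h
        · intro l hl
          have hl' : l < (k : ℕ) := by simpa using hl
          exact ⟨⟨l, hl'.trans k.2⟩, by rw [mem_Iio, Fin.lt_def]; exact hl', rfl⟩
        · intro l _; rw [hv]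
      calc a m i * (1 - (inner ℂ (α m i) (Y m (α m i))).re)
          ≤ a m i * (2 * ∑ l ∈ Iio k, ‖inner ℂ (α (p l).1 (p l).2) (α m i)‖ ^ 2) := by
            rw [← e4]; exact mul_le_mul_of_nonneg_left e3 (ha m i)
        _ = 2 * ∑ l ∈ Iio k, a m i * ‖inner ℂ (α (p l).1 (p l).2) (α m i)‖ ^ 2 := by
            rw [← mul_sum]; ring
        _ ≤ _ := by
            refine mul_le_mul_of_nonneg_left (sum_le_sum fun l hl => ?_) (by norm_num)
            have hl' : l ≤ k := (by simpa using hl : l < k).le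
            have hw := hp l k hl'
            rw [hpk] at hw
            simp only at hw
            simp only [G]
            split_ifs with hlab
            · have hne : (p l).2 ≠ i := by
                intro h
                have : p l = (m, i) := Prod.ext hlab h
                have hlk : l = k := by rw [hk, ← this]; simp
                exact absurd hl (by simp [hlk])
              generalize p l = z at hlab hne
              obtain ⟨s, t⟩ := z
              simp only at hlab hne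
              subst hlab
              have := (α s).orthonormal.2 hne
              simp [this]
            · rw [min_eq_right hw]
    have hS1 : ∑ m, ∑ i, ∑ l ∈ Iio (p.symm (m, i)), G (p l) (m, i) =
        ∑ k, ∑ l ∈ Iio k, G (p l) (p k) := by
      rw [← Fintype.sum_prod_type'
        (f := fun m i => ∑ l ∈ Iio (p.symm (m, i)), G (p l) (m, i))]
      rw [← Equiv.sum_comp p (fun x : Fin n × Fin d => ∑ l ∈ Iio (p.symm (x.1, x.2)),
        G (p l) (x.1, x.2))]
      simp
    have hS2 : ∑ k, ∑ l ∈ Iio k, G (p l) (p k) = ∑ k, ∑ l ∈ Ioi k, G (p k) (p l) := by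
      rw [sum_comm' (t' := univ) (s' := fun l => Ioi l) (by simp)]
    have hS3 := tri (fun k l => G (p k) (p l)) (fun k l => hG _ _) (fun k => hG0 _)
    have hS4 : ∑ k, ∑ l, G (p k) (p l) = ∑ s, ∑ t, G s t := by
      rw [Equiv.sum_comp p (fun s => ∑ l, G s (p l))]
      exact sum_congr rfl fun s _ => Equiv.sum_comp p (fun t => G s t)
    have hS5 : ∑ s, ∑ t, G s t = ∑ m, ∑ m', ∑ i, ∑ j, G (m, i) (m', j) := by
      rw [Fintype.sum_prod_type]
      refine sum_congr rfl fun m _ => ?_
      rw [sum_comm]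
      simp only [Fintype.sum_prod_type]
      rw [show (∑ m', ∑ j, ∑ i, G (m, i) (m', j)) = ∑ m', ∑ i, ∑ j, G (m, i) (m', j) from
        sum_congr rfl fun m' _ => sum_comm]
    have hS6 := tri (fun m m' => ∑ i, ∑ j, G (m, i) (m', j))
      (fun m m' => by
        rw [sum_comm]
        exact sum_congr rfl fun j _ => sum_congr rfl fun i _ => hG _ _)
      (fun m => by simp [G])
    have hS7 : ∑ m, ∑ m' ∈ Ioi m, ∑ i, ∑ j, G (m, i) (m', j) =
        ∑ m, ∑ m' ∈ Ioi m, ∑ i, ∑ j,
          min (a m i) (a m' j) * ‖inner ℂ (α m i) (α m' j)‖ ^ 2 := by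
      refine sum_congr rfl fun m _ => sum_congr rfl fun m' hm' => sum_congr rfl fun i _ =>
        sum_congr rfl fun j _ => ?_
      have : m ≠ m' := (by simpa using hm' : m < m').ne
      simp [G, this]
    calc ∑ m, ∑ i, a m i * (1 - (inner ℂ (α m i) (Y m (α m i))).re)
        ≤ ∑ m, ∑ i, 2 * ∑ l ∈ Iio (p.symm (m, i)), G (p l) (m, i) :=
          sum_le_sum fun m _ => sum_le_sum fun i _ => hterm m i
      _ = 2 * ∑ m, ∑ i, ∑ l ∈ Iio (p.symm (m, i)), G (p l) (m, i) := by
          simp only [← mul_sum]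
      _ = 2 * ∑ m, ∑ m' ∈ Ioi m, ∑ i, ∑ j,
          min (a m i) (a m' j) * ‖inner ℂ (α m i) (α m' j)‖ ^ 2 := by
          rw [← hS7, hS1, hS2]
          linarith

end Pool.Agent.Y659.TraceIneq
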