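import Pool.Agent.Y659.TraceIneq.Core

/-! The two matrix estimates. -/

set_option autoImplicit false

namespace Pool.Agent.Y659.TraceIneq

open Finset Matrix
open scoped ComplexOrder

variable {d : ℕ}


abbrev Mt (d : ℕ) := Matrix (Fin d) (Fin d) ℂ
abbrev Eu (d : ℕ) := EuclideanSpace ℂ (Fin d)

lemma trace_lin (A : Mt d) : LinearMap.trace ℂ (Eu d) (toEuclideanLin A) = A.trace := by
  rw [show (toEuclideanLin A : Eu d →ₗ[ℂ] Eu d) = Matrix.toLin (PiLp.basisFun 2 ℂ (Fin d)) (PiLp.basisFun 2 ℂ (Fin d)) A from congrArg (fun f => f A) (toLpLin_eq_toLin 2 2)]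
  exact Matrix.trace_toLin_eq A _

lemma trace_basis (A : Mt d) (b : OrthonormalBasis (Fin d) ℂ (Eu d)) :
    A.trace = ∑ k, inner ℂ (b k) (toEuclideanLin A (b k)) := by
  rw [← trace_lin, LinearMap.trace_eq_sum_inner _ b]

lemma lin_mul (A B : Mt d) (x : Eu d) :
    toEuclideanLin (A * B) x = toEuclideanLin A (toEuclideanLin B x) := by
  simp [toLpLin_apply]

lemma lin_symm {A : Mt d} (hA : A.IsHermitian) (x y : Eu d) :
    inner ℂ (toEuclideanLin A x) y = inner ℂ x (toEuclideanLin A y) :=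
  (isSymmetric_toEuclideanLin_iff.2 hA) x y

lemma lin_eig {A : Mt d} (hA : A.IsHermitian) (k : Fin d) :
    toEuclideanLin A (hA.eigenvectorBasis k) = (hA.eigenvalues k : ℂ) • hA.eigenvectorBasis k := by
  have := hA.mulVec_eigenvectorBasis k
  ext i
  have h2 := congrFun this i
  simp [toLpLin_apply, h2]

/-- quadratic form in the eigenbasis -/
lemma form_eig {A : Mt d} (hA : A.IsHermitian) (x : Eu d) :
    inner ℂ x (toEuclideanLin A x) =
      ((∑ i, hA.eigenvalues i * ‖inner ℂ (hA.eigenvectorBasis i) x‖ ^ 2 : ℝ) : ℂ) := by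
  rw [← OrthonormalBasis.sum_inner_mul_inner hA.eigenvectorBasis x]
  push_cast
  refine sum_congr rfl fun i _ => ?_
  rw [← lin_symm hA, lin_eig, inner_smul_left, ← inner_conj_symm x]
  simp only [Complex.conj_ofReal]
  rw [show (starRingEnd ℂ) (inner ℂ (hA.eigenvectorBasis i) x) *
    (↑(hA.eigenvalues i) * inner ℂ (hA.eigenvectorBasis i) x) = hA.eigenvalues i *
    ((starRingEnd ℂ) (inner ℂ (hA.eigenvectorBasis i) x) * inner ℂ (hA.eigenvectorBasis i) x) by
      ring, Complex.conj_mul']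

/-- the row estimate -/
lemma row {n : ℕ} (A : Fin n → Mt d) (hA : ∀ m, (A m).IsHermitian) {T : Mt d}
    (hT : T.PosSemidef) (hTT : T * T = ∑ m, A m * A m) (Y : Fin n → (Eu d →ₗ[ℂ] Eu d))
    (hY : ∀ x, ∑ m, ‖Y m x‖ ^ 2 ≤ ‖x‖ ^ 2) :
    ∑ m, ∑ i, (hA m).eigenvalues i *
      (inner ℂ ((hA m).eigenvectorBasis i) (Y m ((hA m).eigenvectorBasis i))).re ≤
      T.trace.re := by
  set e := hT.1.eigenvectorBasis with he
  have h1 : ∀ m, ∑ i, (hA m).eigenvalues i *
      (inner ℂ ((hA m).eigenvectorBasis i) (Y m ((hA m).eigenvectorBasis i))).re =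
      (∑ k, inner ℂ (toEuclideanLin (A m) (e k)) (Y m (e k))).re := by
    intro m
    have e1 : ∑ k, inner ℂ (toEuclideanLin (A m) (e k)) (Y m (e k)) =
        LinearMap.trace ℂ (Eu d) (toEuclideanLin (A m) ∘ₗ Y m) := by
      rw [LinearMap.trace_eq_sum_inner _ e]
      exact sum_congr rfl fun k _ => by rw [LinearMap.comp_apply, lin_symm (hA m)]
    rw [e1, LinearMap.trace_eq_sum_inner _ (hA m).eigenvectorBasis, Complex.re_sum]
    refine sum_congr rfl fun i _ => ?_
    rw [LinearMap.comp_apply, ← lin_symm (hA m), lin_eig, inner_smul_left]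
    simp
  have h2 : T.trace.re = ∑ k, hT.1.eigenvalues k := by
    rw [trace_basis T e, Complex.re_sum]
    refine sum_congr rfl fun k _ => ?_
    rw [he, lin_eig, inner_smul_right, inner_self_eq_norm_sq_to_K,
      hT.1.eigenvectorBasis.orthonormal.norm_eq_one]
    simp
  rw [sum_congr rfl fun m _ => h1 m, h2]
  simp only [Complex.re_sum]
  rw [sum_comm]
  refine sum_le_sum fun k _ => ?_
  have h3 : ∑ m, ‖toEuclideanLin (A m) (e k)‖ ^ 2 = hT.1.eigenvalues k ^ 2 := by
    have e2 : ∀ m, ((‖toEuclideanLin (A m) (e k)‖ ^ 2 : ℝ) : ℂ) =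
        inner ℂ (e k) (toEuclideanLin (A m * A m) (e k)) := by
      intro m
      rw [lin_mul, ← lin_symm (hA m), inner_self_eq_norm_sq_to_K]
      simp
    have e3 : ((∑ m, ‖toEuclideanLin (A m) (e k)‖ ^ 2 : ℝ) : ℂ) =
        ((hT.1.eigenvalues k ^ 2 : ℝ) : ℂ) := by
      push_cast
      have e4 : ∑ m, inner ℂ (e k) (toEuclideanLin (A m * A m) (e k)) =
          inner ℂ (e k) (toEuclideanLin (T * T) (e k)) := by
        rw [hTT, map_sum, LinearMap.sum_apply, inner_sum]
      simp only [← Complex.ofReal_pow] at *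
      rw [sum_congr rfl fun m _ => e2 m, e4, lin_mul, he, lin_eig, map_smul, lin_eig,
        inner_smul_right, inner_smul_right, inner_self_eq_norm_sq_to_K,
        hT.1.eigenvectorBasis.orthonormal.norm_eq_one]
      simp [pow_two]
    exact_mod_cast e3
  have h4 := hY (e k)
  rw [he, hT.1.eigenvectorBasis.orthonormal.norm_eq_one, ← he] at h4
  have h5 : (∑ m, ‖toEuclideanLin (A m) (e k)‖ * ‖Y m (e k)‖) ^ 2 ≤
      (hT.1.eigenvalues k) ^ 2 := by
    refine (sum_mul_sq_le_sq_mul_sq _ _ _).trans ?_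
    rw [h3]
    nlinarith [sq_nonneg (hT.1.eigenvalues k)]
  have h6 : ∑ m, ‖toEuclideanLin (A m) (e k)‖ * ‖Y m (e k)‖ ≤ hT.1.eigenvalues k :=
    (abs_le_of_sq_le_sq' h5 (hT.eigenvalues_nonneg k)).2
  refine le_trans (sum_le_sum fun m _ => ?_) h6
  exact (Complex.re_le_norm _).trans (norm_inner_le_norm _ _)

/-- the pair estimate -/
lemma pair {A B N : Mt d} (hA : A.PosSemidef) (hB : B.PosSemidef) (hN : N.PosSemidef)
    (hNN : N * N = (A - B)ᴴ * (A - B)) :
    ∑ i, ∑ j, min (hA.1.eigenvalues i) (hB.1.eigenvalues j) *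
      ‖inner ℂ (hA.1.eigenvectorBasis i) (hB.1.eigenvectorBasis j)‖ ^ 2 ≤
      (A + B).trace.re - N.trace.re := by
  have hX : (A - B).IsHermitian := hA.1.sub hB.1
  set e := hX.eigenvectorBasis with he
  set x := hX.eigenvalues with hx
  set α := hA.1.eigenvectorBasis with hα
  set β := hB.1.eigenvectorBasis with hβ
  set a := hA.1.eigenvalues with ha
  set b := hB.1.eigenvalues with hb
  have hNt : N.trace.re ≤ ∑ k, |x k| := by
    rw [trace_basis N e, Complex.re_sum]
    refine sum_le_sum fun k _ => ?_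
    have h1 : ‖toEuclideanLin N (e k)‖ ^ 2 = x k ^ 2 := by
      have e1 : ((‖toEuclideanLin N (e k)‖ ^ 2 : ℝ) : ℂ) = ((x k ^ 2 : ℝ) : ℂ) := by
        have : ((‖toEuclideanLin N (e k)‖ ^ 2 : ℝ) : ℂ) =
            inner ℂ (e k) (toEuclideanLin (N * N) (e k)) := by
          rw [lin_mul, ← lin_symm hN.1, inner_self_eq_norm_sq_to_K]; simp
        rw [this, hNN, hX.eq, lin_mul, he, lin_eig, map_smul, lin_eig,
          inner_smul_right, inner_smul_right, inner_self_eq_norm_sq_to_K,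
          hX.eigenvectorBasis.orthonormal.norm_eq_one]
        simp [pow_two, hx]
      exact_mod_cast e1
    have h2 : ‖toEuclideanLin N (e k)‖ = |x k| := by
      rw [← abs_of_nonneg (norm_nonneg (toEuclideanLin N (e k)))]
      exact (sq_eq_sq_iff_abs_eq_abs _ _).1 h1
    refine (Complex.re_le_norm _).trans ((norm_inner_le_norm _ _).trans ?_)
    rw [h2, he, hX.eigenvectorBasis.orthonormal.norm_eq_one, one_mul]
  -- quadratic forms
  let fA : Fin d → ℝ := fun k => ∑ i, a i * ‖inner ℂ (α i) (e k)‖ ^ 2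
  let fB : Fin d → ℝ := fun k => ∑ j, b j * ‖inner ℂ (β j) (e k)‖ ^ 2
  have hfx : ∀ k, x k = fA k - fB k := by
    intro k
    have h1 : inner ℂ (e k) (toEuclideanLin (A - B) (e k)) = (x k : ℂ) := by
      rw [he, lin_eig, inner_smul_right, inner_self_eq_norm_sq_to_K,
        hX.eigenvectorBasis.orthonormal.norm_eq_one]
      simp [hx]
    rw [map_sub, LinearMap.sub_apply, inner_sub_right, form_eig hA.1, form_eig hB.1] at h1
    have : (x k : ℂ) = ((fA k - fB k : ℝ) : ℂ) := by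
      rw [← h1]; push_cast; simp [fA, fB, ha, hb, hα, hβ]
    exact_mod_cast this
  have htr : (A + B).trace.re = ∑ k, (fA k + fB k) := by
    rw [trace_basis (A + B) e, Complex.re_sum]
    refine sum_congr rfl fun k _ => ?_
    rw [map_add, LinearMap.add_apply, inner_add_right, form_eig hA.1, form_eig hB.1]
    simp only [Complex.add_re, Complex.ofReal_re]
    rfl
  -- the test
  let p : Fin d → ℝ := fun k => if 0 ≤ x k then 1 else 0
  have hp : ∀ k, fA k + fB k - |x k| = 2 * ((1 - p k) * fA k + p k * fB k) := by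
    intro k
    simp only [p]
    split_ifs with h
    · rw [abs_of_nonneg h, hfx k]; ring
    · rw [abs_of_neg (not_le.1 h), hfx k]; ring
  let S : Eu d → Eu d := fun y => ∑ k, ((p k : ℂ) * inner ℂ (e k) y) • e k
  let S' : Eu d → Eu d := fun y => ∑ k, (((1 - p k : ℝ) : ℂ) * inner ℂ (e k) y) • e k
  have hSS : ∀ y, S' y + S y = y := by
    intro y
    simp only [S, S', ← sum_add_distrib, ← add_smul]
    conv_rhs => rw [← e.sum_repr' y]
    refine sum_congr rfl fun k _ => ?_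
    congr 1; push_cast; ring
  have hpp : ∀ k, p k ^ 2 = p k := by intro k; simp only [p]; split_ifs <;> norm_num
  have hnS : ∀ y, ‖S y‖ ^ 2 = ∑ k, p k * ‖inner ℂ (e k) y‖ ^ 2 := by
    intro y
    rw [← e.sum_sq_norm_inner_right]
    refine sum_congr rfl fun k _ => ?_
    simp only [S]
    rw [e.orthonormal.inner_right_fintype, norm_mul, mul_pow, Complex.norm_real,
      Real.norm_eq_abs, sq_abs, hpp]
  have hnS' : ∀ y, ‖S' y‖ ^ 2 = ∑ k, (1 - p k) * ‖inner ℂ (e k) y‖ ^ 2 := by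
    intro y
    rw [← e.sum_sq_norm_inner_right]
    refine sum_congr rfl fun k _ => ?_
    simp only [S']
    rw [e.orthonormal.inner_right_fintype, norm_mul, mul_pow, Complex.norm_real,
      Real.norm_eq_abs, sq_abs]
    have := hpp k
    congr 1; nlinarith
  have hSsym : ∀ y z, inner ℂ (S y) z = inner ℂ y (S z) := by
    intro y z
    simp only [S, sum_inner, inner_sum, inner_smul_left, inner_smul_right, map_mul,
      Complex.conj_ofReal, inner_conj_symm]
    exact sum_congr rfl fun k _ => by ring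
  have hA1 : ∑ k, (1 - p k) * fA k = ∑ i, ∑ j, a i * ‖inner ℂ (β j) (S' (α i))‖ ^ 2 := by
    simp only [← mul_sum]
    simp only [β.sum_sq_norm_inner_right, hnS', fA, mul_sum]
    rw [sum_comm]
    refine sum_congr rfl fun i _ => sum_congr rfl fun k _ => ?_
    rw [norm_inner_symm]; ring
  have hB1 : ∑ k, p k * fB k = ∑ i, ∑ j, b j * ‖inner ℂ (β j) (S (α i))‖ ^ 2 := by
    rw [sum_comm]
    have : ∀ j i, ‖inner ℂ (β j) (S (α i))‖ = ‖inner ℂ (α i) (S (β j))‖ := by
      intro j i; rw [← hSsym, norm_inner_symm]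
    simp only [this, ← mul_sum]
    simp only [α.sum_sq_norm_inner_right, hnS, fB, mul_sum]
    rw [sum_comm]
    refine sum_congr rfl fun i _ => sum_congr rfl fun k _ => ?_
    rw [norm_inner_symm]; ring
  have hfin : ∀ i j, min (a i) (b j) * ‖inner ℂ (α i) (β j)‖ ^ 2 ≤
      2 * (a i * ‖inner ℂ (β j) (S' (α i))‖ ^ 2 + b j * ‖inner ℂ (β j) (S (α i))‖ ^ 2) := by
    intro i j
    have h0 : inner ℂ (β j) (α i) = inner ℂ (β j) (S' (α i)) + inner ℂ (β j) (S (α i)) := by
      rw [← inner_add_right, hSS]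
    have h1 : ‖inner ℂ (α i) (β j)‖ ≤ ‖inner ℂ (β j) (S' (α i))‖ + ‖inner ℂ (β j) (S (α i))‖ := by
      rw [norm_inner_symm, h0]; exact norm_add_le _ _
    have h2 : ‖inner ℂ (α i) (β j)‖ ^ 2 ≤
        2 * (‖inner ℂ (β j) (S' (α i))‖ ^ 2 + ‖inner ℂ (β j) (S (α i))‖ ^ 2) := by
      have := pow_le_pow_left₀ (norm_nonneg _) h1 2
      nlinarith [sq_nonneg (‖inner ℂ (β j) (S' (α i))‖ - ‖inner ℂ (β j) (S (α i))‖)]
    have ha0 : 0 ≤ a i := hA.eigenvalues_nonneg i
    have hb0 : 0 ≤ b j := hB.eigenvalues_nonneg j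
    have hm0 : 0 ≤ min (a i) (b j) := le_min ha0 hb0
    have h3 : min (a i) (b j) * ‖inner ℂ (β j) (S' (α i))‖ ^ 2 ≤
        a i * ‖inner ℂ (β j) (S' (α i))‖ ^ 2 :=
      mul_le_mul_of_nonneg_right (min_le_left _ _) (by positivity)
    have h4 : min (a i) (b j) * ‖inner ℂ (β j) (S (α i))‖ ^ 2 ≤
        b j * ‖inner ℂ (β j) (S (α i))‖ ^ 2 :=
      mul_le_mul_of_nonneg_right (min_le_right _ _) (by positivity)
    have h5 := mul_le_mul_of_nonneg_left h2 hm0
    linarith
  calc ∑ i, ∑ j, min (a i) (b j) * ‖inner ℂ (α i) (β j)‖ ^ 2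
      ≤ ∑ i, ∑ j, 2 * (a i * ‖inner ℂ (β j) (S' (α i))‖ ^ 2 +
          b j * ‖inner ℂ (β j) (S (α i))‖ ^ 2) :=
        sum_le_sum fun i _ => sum_le_sum fun j _ => hfin i j
    _ = 2 * (∑ k, (1 - p k) * fA k + ∑ k, p k * fB k) := by
        rw [hA1, hB1]; simp only [← mul_sum, sum_add_distrib]
    _ = ∑ k, (fA k + fB k - |x k|) := by
        simp only [hp, ← mul_sum, sum_add_distrib]
    _ = (A + B).trace.re - ∑ k, |x k| := by rw [htr, sum_sub_distrib]
    _ ≤ _ := by linarith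

end Pool.Agent.Y659.TraceIneq
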