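import Mathlib

/-! Sequential rank-one measurements. -/

set_option autoImplicit false

namespace Pool.Agent.Y659.TraceIneq

open Finset

variable {E : Type*} [NormedAddCommGroup E] [InnerProductSpace ℂ E]

/-- the unnormalised state after `l` unsuccessful tests -/
noncomputable def seq (v : ℕ → E) : ℕ → E → E
  | 0, x => x
  | l + 1, x => seq v l x - inner ℂ (v l) (seq v l x) • v l

/-- the amplitude of success in test `l` -/
noncomputable def amp (v : ℕ → E) (l : ℕ) (x : E) : ℂ := inner ℂ (v l) (seq v l x)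

lemma seq_succ (v : ℕ → E) (l : ℕ) (x : E) :
    seq v (l + 1) x = seq v l x - amp v l x • v l := rfl

lemma seq_add (v : ℕ → E) (l : ℕ) (x y : E) : seq v l (x + y) = seq v l x + seq v l y := by
  induction l with
  | zero => rfl
  | succ l ih =>
    simp only [seq, ih, inner_add_right, add_smul]
    abel

lemma seq_smul (v : ℕ → E) (l : ℕ) (c : ℂ) (x : E) : seq v l (c • x) = c • seq v l x := by
  induction l with
  | zero => rfl
  | succ l ih =>
    simp only [seq, ih, inner_smul_right, smul_sub, smul_smul]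

lemma amp_add (v : ℕ → E) (l : ℕ) (x y : E) : amp v l (x + y) = amp v l x + amp v l y := by
  simp [amp, seq_add]

lemma amp_smul (v : ℕ → E) (l : ℕ) (c : ℂ) (x : E) : amp v l (c • x) = c * amp v l x := by
  simp [amp, seq_smul]

lemma seq_eq (v : ℕ → E) (l : ℕ) (x : E) :
    seq v l x = x - ∑ k ∈ range l, amp v k x • v k := by
  induction l with
  | zero => simp [seq]
  | succ l ih => rw [seq_succ, sum_range_succ, ih]; abel

lemma norm_seq_succ (v : ℕ → E) (l : ℕ) (hl : ‖v l‖ = 1) (x : E) :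
    ‖seq v (l + 1) x‖ ^ 2 + ‖amp v l x‖ ^ 2 = ‖seq v l x‖ ^ 2 := by
  have h1 : inner ℂ (seq v (l + 1) x) (amp v l x • v l) = 0 := by
    rw [seq_succ, inner_sub_left, inner_smul_right, inner_smul_right, inner_smul_left]
    have h2 : inner ℂ (v l) (v l) = (1 : ℂ) := by
      rw [inner_self_eq_norm_sq_to_K, hl]; simp
    rw [h2, mul_one, ← inner_conj_symm (seq v l x) (v l)]
    simp [amp]
  have h3 : seq v l x = seq v (l + 1) x + amp v l x • v l := by rw [seq_succ]; abel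
  have h4 := norm_add_sq_eq_norm_sq_add_norm_sq_of_inner_eq_zero
    (𝕜 := ℂ) (seq v (l + 1) x) (amp v l x • v l) h1
  rw [← h3, norm_smul, hl, mul_one] at h4
  nlinarith [h4]

lemma sum_amp (v : ℕ → E) (l : ℕ) (hl : ∀ k < l, ‖v k‖ = 1) (x : E) :
    ∑ k ∈ range l, ‖amp v k x‖ ^ 2 + ‖seq v l x‖ ^ 2 = ‖x‖ ^ 2 := by
  induction l with
  | zero => simp [seq]
  | succ l ih =>
    rw [sum_range_succ]
    have h1 := ih (fun k hk => hl k (by omega))
    have h2 := norm_seq_succ v l (hl l (by omega)) x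
    linarith

/-- The key estimate: if `x = v l` is orthogonal to the `v k`, `k < l`, of the same label, then
testing `v 0, …, v (l-1)` first changes the amplitude of `x` by at most
`2 ∑ ‖⟨v k, x⟩‖²`. -/
lemma key (v : ℕ → E) (l : ℕ) (hl : ∀ k < l, ‖v k‖ = 1) (x : E) (hx : ‖x‖ = 1) :
    ‖1 - inner ℂ x (seq v l x)‖ ≤ 2 * ∑ k ∈ range l, ‖inner ℂ (v k) x‖ ^ 2 := by
  set q := ∑ k ∈ range l, ‖inner ℂ (v k) x‖ ^ 2 with hq
  set σ : ℂ := 1 - inner ℂ x (seq v l x) with hσ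
  have e1 : σ = ∑ k ∈ range l, amp v k x * inner ℂ x (v k) := by
    rw [hσ, seq_eq, inner_sub_right, inner_sum, inner_self_eq_norm_sq_to_K, hx]
    simp [inner_smul_right]
  have e2 : ‖σ‖ ^ 2 ≤ (∑ k ∈ range l, ‖amp v k x‖ ^ 2) * q := by
    have h1 : ‖σ‖ ≤ ∑ k ∈ range l, ‖amp v k x‖ * ‖inner ℂ (v k) x‖ := by
      rw [e1]
      refine (norm_sum_le _ _).trans (sum_le_sum fun k _ => ?_)
      rw [norm_mul, norm_inner_symm]
    calc ‖σ‖ ^ 2 ≤ (∑ k ∈ range l, ‖amp v k x‖ * ‖inner ℂ (v k) x‖) ^ 2 :=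
          pow_le_pow_left₀ (norm_nonneg _) h1 2
      _ ≤ _ := sum_mul_sq_le_sq_mul_sq _ _ _
  have e3 := sum_amp v l hl x
  have e4 : ‖inner ℂ x (seq v l x)‖ ^ 2 ≤ ‖seq v l x‖ ^ 2 := by
    have := norm_inner_le_norm (𝕜 := ℂ) x (seq v l x)
    rw [hx, one_mul] at this
    exact pow_le_pow_left₀ (norm_nonneg _) this 2
  have e5 : inner ℂ x (seq v l x) = 1 - σ := by rw [hσ]; ring
  have e6 : ‖(1 : ℂ) - σ‖ ^ 2 = 1 - 2 * σ.re + ‖σ‖ ^ 2 := by
    rw [← Complex.normSq_eq_norm_sq, ← Complex.normSq_eq_norm_sq]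
    simp [Complex.normSq_apply]
    ring
  rw [e5, e6] at e4
  rw [hx] at e3
  have hre : σ.re ≤ ‖σ‖ := Complex.re_le_norm σ
  have hq0 : 0 ≤ q := sum_nonneg fun k _ => by positivity
  have hb : ∑ k ∈ range l, ‖amp v k x‖ ^ 2 ≤ 2 * ‖σ‖ := by nlinarith [sq_nonneg ‖σ‖]
  have h7 : ‖σ‖ ^ 2 ≤ 2 * ‖σ‖ * q := e2.trans (mul_le_mul_of_nonneg_right hb hq0)
  rcases (norm_nonneg σ).eq_or_lt with h0 | h0
  · rw [← h0]; positivity
  · nlinarith

end Pool.Agent.Y659.TraceIneq
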